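import Mathlib

/-!
# Spanning sets, orders of growth and topological entropy
-/

set_option autoImplicit false

open Filter Topology

namespace Pool.Agent.X183.LinGrow

/-- `Span(T,n,ε)`: the least cardinality of a finite set `E` such that every `x` has some `y ∈ E`
with `dist (T^i x) (T^i y) < ε` for all `i < n`. -/
noncomputable def spanCard {X : Type} [MetricSpace X] (T : X → X) (n : ℕ) (ε : ℝ) : ℕ :=
  sInf {k | ∃ E : Finset X, E.card = k ∧ ∀ x, ∃ y ∈ E, ∀ i < n, dist (T^[i] x) (T^[i] y) < ε}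

/-- The relation `[a] ≤ [b]` between orders of growth: `a n ≤ C b n` for all `n ≥ 1`. -/
def GrowthLE (a b : ℕ → ℝ) : Prop := ∃ C : ℝ, 0 < C ∧ ∀ n : ℕ, 1 ≤ n → a n ≤ C * b n

/-- `o(T) = [n]`: the order of growth `[n]` is the least upper bound of the orders of growth
`[Span(T,n,ε)]`, `ε > 0`. -/
def HasLinearGrowth {X : Type} [MetricSpace X] (T : X → X) : Prop :=
  (∀ ε : ℝ, 0 < ε → GrowthLE (fun n => (spanCard T n ε : ℝ)) (fun n => (n : ℝ))) ∧
    ∀ b : ℕ → ℝ, Monotone b → (∀ n, 0 ≤ b n) →
      (∀ ε : ℝ, 0 < ε → GrowthLE (fun n => (spanCard T n ε : ℝ)) b) →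
        GrowthLE (fun n => (n : ℝ)) b

/-- The topological entropy `sup_{ε > 0} limsup_n (1/n) log Span(T,n,ε)`. -/
noncomputable def topEntropy {X : Type} [MetricSpace X] (T : X → X) : EReal :=
  ⨆ ε : {ε : ℝ // 0 < ε},
    limsup (fun n : ℕ => ((Real.log (spanCard T n ε.1 : ℝ) / (n : ℝ) : ℝ) : EReal)) atTop

/-- The induced map `W ↦ T(W)` on the space of non-empty compact subsets with the Hausdorff
metric. -/
noncomputable def hyper {X : Type} [MetricSpace X] (T : X → X) (hT : Continuous T) :
    TopologicalSpace.NonemptyCompacts X → TopologicalSpace.NonemptyCompacts X :=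
  fun W => W.map T hT

section basic

variable {X : Type} [MetricSpace X] {T : X → X}

theorem spanCard_le_of_color {n : ℕ} {ε : ℝ} {ι : Type} [Fintype ι] (c : X → ι)
    (h : ∀ x y, c x = c y → ∀ i < n, dist (T^[i] x) (T^[i] y) < ε) :
    spanCard T n ε ≤ Fintype.card ι := by
  classical
  -- representatives
  let r : Set.range c → X := fun j => j.2.choose
  have hr : ∀ j : Set.range c, c (r j) = j.1 := fun j => j.2.choose_spec
  have hfin : Finite (Set.range c) := inferInstance
  have : Fintype (Set.range c) := Fintype.ofFinite _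
  have h1 : spanCard T n ε ≤ (Finset.univ.image r).card := by
    refine Nat.sInf_le ⟨_, rfl, fun x => ?_⟩
    refine ⟨r ⟨c x, x, rfl⟩, Finset.mem_image_of_mem _ (Finset.mem_univ _), ?_⟩
    have h2 : c (r ⟨c x, x, rfl⟩) = c x := hr ⟨c x, x, rfl⟩
    exact h _ _ h2.symm
  refine h1.trans (Finset.card_image_le.trans ?_)
  rw [Finset.card_univ]
  exact Fintype.card_le_of_injective (fun j : Set.range c => j.1) Subtype.val_injective

theorem le_spanCard_of_separated {n : ℕ} {ε : ℝ} {ι : Type} [Fintype ι] (p : ι → X)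
    (hex : ∃ E : Finset X, ∀ x, ∃ y ∈ E, ∀ i < n, dist (T^[i] x) (T^[i] y) < ε)
    (h : ∀ j k, j ≠ k → ∃ i < n, 2 * ε ≤ dist (T^[i] (p j)) (T^[i] (p k))) :
    Fintype.card ι ≤ spanCard T n ε := by
  classical
  have hne : {k | ∃ E : Finset X, E.card = k ∧
      ∀ x, ∃ y ∈ E, ∀ i < n, dist (T^[i] x) (T^[i] y) < ε}.Nonempty := by
    obtain ⟨E, hE⟩ := hex
    exact ⟨E.card, E, rfl, hE⟩
  obtain ⟨E, hE1, hE2⟩ := Nat.sInf_mem hne
  change _ ≤ sInf _
  rw [← hE1]
  choose q hqE hq using fun j => hE2 (p j)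
  have hinj : Function.Injective q := by
    intro j k hjk
    by_contra hne
    obtain ⟨i, hi, hd⟩ := h j k hne
    have h1 := hq j i hi
    have h2 := hq k i hi
    rw [← hjk] at h2
    have h3 := dist_triangle_right (T^[i] (p j)) (T^[i] (p k)) (T^[i] (q j))
    linarith
  rw [← Finset.card_univ]
  exact Finset.card_le_card_of_injOn q (fun j _ => hqE j) hinj.injOn

/-- Finite colourings with small classes. -/
theorem exists_color (Y : Type) [MetricSpace Y] [CompactSpace Y] {ε : ℝ} (hε : 0 < ε) :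
    ∃ (K : ℕ) (c : Y → Fin K), ∀ x y, c x = c y → dist x y < ε := by
  classical
  obtain ⟨E, -, hEfin, hE⟩ := (isCompact_univ (X := Y)).finite_cover_balls (half_pos hε)
  have hmem : ∀ x : Y, ∃ y : E, dist x y.1 < ε / 2 := by
    intro x
    have := hE (Set.mem_univ x)
    simp only [Set.mem_iUnion, Metric.mem_ball] at this
    obtain ⟨y, hy, hxy⟩ := this
    exact ⟨⟨y, hy⟩, hxy⟩
  choose c hc using hmem
  have : Fintype E := hEfin.fintype
  refine ⟨Fintype.card E, fun x => Fintype.equivFin E (c x), fun x y hxy => ?_⟩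
  have h1 : c x = c y := (Fintype.equivFin E).injective hxy
  have h2 := hc x
  have h3 := hc y
  rw [← h1] at h3
  have := dist_triangle_right x y (c x : Y)
  linarith

/-- A map whose orbits slow down uniformly has zero topological entropy. -/
theorem tendsto_log_span [CompactSpace X] [Nonempty X] {s : ℕ → ℝ}
    (hs : Tendsto s atTop (𝓝 0)) (hT : ∀ i x, dist (T^[i + 1] x) (T^[i] x) ≤ s i)
    {ε : ℝ} (hε : 0 < ε) :
    Tendsto (fun n : ℕ => Real.log (spanCard T n ε : ℝ) / (n : ℝ)) atTop (𝓝 0) := by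
  obtain ⟨K, c, hc⟩ := exists_color X (show 0 < ε / 3 by positivity)
  have hK : 0 < K := by
    obtain ⟨x⟩ := ‹Nonempty X›
    exact lt_of_le_of_lt (Nat.zero_le _) (c x).2
  -- the basic bound
  have hbound : ∀ L : ℕ, 0 < L → ∃ i0 : ℕ, ∀ n : ℕ, spanCard T n ε ≤ K ^ (i0 + n / L + 1) := by
    intro L hL
    have hLr : (0 : ℝ) < L := by exact_mod_cast hL
    obtain ⟨i0, hi0⟩ := (Metric.tendsto_atTop.1 hs) (ε / (3 * L)) (by positivity)
    have hsi : ∀ i ≥ i0, s i ≤ ε / (3 * L) := by
      intro i hi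
      have := hi0 i hi
      rw [Real.dist_eq, sub_zero] at this
      exact (le_abs_self _).trans this.le
    have hmove : ∀ x a m, i0 ≤ a → dist (T^[a + m] x) (T^[a] x) ≤ m * (ε / (3 * L)) := by
      intro x a m ha
      induction m with
      | zero => simp
      | succ m ih =>
        have h1 := hT (a + m) x
        have h2 := hsi (a + m) (by omega)
        have h3 := dist_triangle (T^[a + m + 1] x) (T^[a + m] x) (T^[a] x)
        rw [← add_assoc]
        push_cast
        linarith
    refine ⟨i0, fun n => ?_⟩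
    let t : Fin (i0 + n / L + 1) → ℕ := fun j => if (j : ℕ) < i0 then j else i0 + (j - i0) * L
    have h := spanCard_le_of_color (T := T) (n := n) (ε := ε)
      (fun x => (fun j : Fin (i0 + n / L + 1) => c (T^[t j] x))) ?_
    · simpa using h
    · intro x y hxy i hi
      by_cases hii : i < i0
      · have h1 := congrFun hxy ⟨i, lt_of_lt_of_le hii
          (by rw [add_assoc]; exact Nat.le_add_right _ _)⟩
        simp only [t, hii, if_true] at h1
        have := hc _ _ h1
        linarith
      · push Not at hii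
        have hlt : i0 + (i - i0) / L < i0 + n / L + 1 := by
          have : (i - i0) / L ≤ n / L := Nat.div_le_div_right (by omega)
          omega
        have h1 := congrFun hxy ⟨i0 + (i - i0) / L, hlt⟩
        have h2 : ¬ (i0 + (i - i0) / L < i0) := not_lt.2 (Nat.le_add_right _ _)
        simp only [t, h2, if_false, Nat.add_sub_cancel_left] at h1
        have h3 := hc _ _ h1
        set b := i0 + (i - i0) / L * L with hb
        have hmod : (i - i0) / L * L + (i - i0) % L = i - i0 := by
          rw [mul_comm]; exact Nat.div_add_mod _ _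
        have hib : i = b + (i - i0) % L := by omega
        have hmL : (((i - i0) % L : ℕ) : ℝ) * (ε / (3 * L)) ≤ ε / 3 := by
          have : (((i - i0) % L : ℕ) : ℝ) ≤ L := by exact_mod_cast (Nat.mod_lt _ hL).le
          calc (((i - i0) % L : ℕ) : ℝ) * (ε / (3 * L)) ≤ L * (ε / (3 * L)) := by gcongr
            _ = ε / 3 := by field_simp
        have h4 := hmove x b ((i - i0) % L) (by omega)
        have h5 := hmove y b ((i - i0) % L) (by omega)
        rw [← hib] at h4 h5
        have h6 := dist_triangle4 (T^[i] x) (T^[b] x) (T^[b] y) (T^[i] y)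
        rw [dist_comm (T^[b] y) (T^[i] y)] at h6
        linarith
  -- conclusion
  rw [Metric.tendsto_atTop]
  intro η hη
  obtain ⟨L, hL⟩ := exists_nat_gt (2 * Real.log K / η)
  have hlogK : 0 ≤ Real.log K := Real.log_natCast_nonneg K
  have hL0 : 0 < L := by
    by_contra hcon
    have : L = 0 := by omega
    rw [this] at hL
    push_cast at hL
    have : 0 ≤ 2 * Real.log K / η := by positivity
    linarith
  have hLr : (0 : ℝ) < L := by exact_mod_cast hL0
  obtain ⟨i0, hi0⟩ := hbound L hL0
  obtain ⟨N, hN⟩ := exists_nat_gt (2 * ((i0 + 1) * Real.log K) / η)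
  refine ⟨max N 1, fun n hn => ?_⟩
  have hn1 : 1 ≤ n := le_trans (le_max_right _ _) hn
  have hnN : N ≤ n := le_trans (le_max_left _ _) hn
  have hnr : (0 : ℝ) < n := by exact_mod_cast hn1
  rw [Real.dist_eq, sub_zero, abs_of_nonneg (div_nonneg (Real.log_natCast_nonneg _) hnr.le),
    div_lt_iff₀ hnr]
  have h1 : Real.log (spanCard T n ε : ℝ) ≤ (i0 + n / L + 1) * Real.log K := by
    rcases Nat.eq_zero_or_pos (spanCard T n ε) with h0 | h0
    · rw [h0]; simp only [Nat.cast_zero, Real.log_zero]; positivity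
    · have h2 := Real.log_le_log (by exact_mod_cast h0)
        (show ((spanCard T n ε : ℕ) : ℝ) ≤ ((K ^ (i0 + n / L + 1) : ℕ) : ℝ) by
          exact_mod_cast hi0 n)
      rw [Nat.cast_pow, Real.log_pow] at h2
      refine h2.trans ?_
      have h3 : ((n / L : ℕ) : ℝ) ≤ (n : ℝ) / L := Nat.cast_div_le
      push_cast
      gcongr
  have h2 : (i0 + 1) * Real.log K < η * n / 2 := by
    have : 2 * ((i0 + 1) * Real.log K) / η < n := lt_of_lt_of_le hN (by exact_mod_cast hnN)
    rw [div_lt_iff₀ hη] at this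
    linarith
  have h3 : (n : ℝ) / L * Real.log K ≤ η * n / 2 := by
    have h4 : 2 * Real.log K < L * η := by
      rw [div_lt_iff₀ hη] at hL; exact hL
    rw [div_mul_eq_mul_div, div_le_iff₀ hLr]
    nlinarith
  calc Real.log (spanCard T n ε : ℝ) ≤ (i0 + n / L + 1) * Real.log K := h1
    _ = (i0 + 1) * Real.log K + n / L * Real.log K := by ring
    _ < η * n := by linarith

theorem topEntropy_eq_zero [CompactSpace X] [Nonempty X] {s : ℕ → ℝ}
    (hs : Tendsto s atTop (𝓝 0)) (hT : ∀ i x, dist (T^[i + 1] x) (T^[i] x) ≤ s i) :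
    topEntropy T = 0 := by
  unfold topEntropy
  have h : ∀ ε : {ε : ℝ // 0 < ε},
      limsup (fun n : ℕ => ((Real.log (spanCard T n ε.1 : ℝ) / (n : ℝ) : ℝ) : EReal)) atTop = 0 := by
    intro ε
    have h1 := tendsto_log_span hs hT ε.2
    have h2 : Tendsto (fun n : ℕ => ((Real.log (spanCard T n ε.1 : ℝ) / (n : ℝ) : ℝ) : EReal)) atTop
        (𝓝 ((0 : ℝ) : EReal)) := (continuous_coe_real_ereal.tendsto 0).comp h1
    rw [h2.limsup_eq]; rfl
  simp only [h]
  have : Nonempty {ε : ℝ // 0 < ε} := ⟨⟨1, one_pos⟩⟩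
  exact ciSup_const

end basic

end Pool.Agent.X183.LinGrow
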