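import Pool.Agent.X183.LinGrow.Defs

/-!
# A slowly rotating system on the annulus
-/

set_option autoImplicit false

open Filter Topology

namespace Pool.Agent.X183.LinGrow

/-- `√(1 + i w²)`. -/
noncomputable def A (i : ℕ) (w : ℝ) : ℝ := Real.sqrt (1 + i * w ^ 2)

/-- The level after `i` steps. -/
noncomputable def W (i : ℕ) (w : ℝ) : ℝ := w / A i w

/-- The rotation after `i` steps. -/
noncomputable def G (i : ℕ) (w : ℝ) : ℝ := i * w / (1 + A i w)

/-- The new level. -/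
noncomputable def lev (w : ℝ) : ℝ := w / Real.sqrt (1 + w ^ 2)

/-- The rotation. -/
noncomputable def rot (w : ℝ) : ℝ := w / (1 + Real.sqrt (1 + w ^ 2))

theorem A_sq (i : ℕ) (w : ℝ) : A i w ^ 2 = 1 + i * w ^ 2 := Real.sq_sqrt (by positivity)

theorem A_ge (i : ℕ) (w : ℝ) : 1 ≤ A i w := by
  unfold A
  rw [Real.one_le_sqrt]
  have : (0 : ℝ) ≤ i * w ^ 2 := by positivity
  linarith

theorem A_pos (i : ℕ) (w : ℝ) : 0 < A i w := by linarith [A_ge i w]

theorem sqrt_W (i : ℕ) (w : ℝ) : Real.sqrt (1 + W i w ^ 2) = A (i + 1) w / A i w := by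
  have h1 := A_pos i w
  have h2 := A_pos (i + 1) w
  rw [Real.sqrt_eq_iff_mul_self_eq (by positivity) (by positivity)]
  unfold W
  have e1 := A_sq i w
  have e2 := A_sq (i + 1) w
  have e3 : 1 + (w / A i w) ^ 2 = (A i w ^ 2 + w ^ 2) / A i w ^ 2 := by
    field_simp
  rw [e3, e1]
  rw [div_mul_div_comm, ← sq, ← sq, e1, e2]
  congr 1
  push_cast; ring

theorem lev_W (i : ℕ) (w : ℝ) : lev (W i w) = W (i + 1) w := by
  have h1 := A_pos i w
  have h2 := A_pos (i + 1) w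
  unfold lev
  rw [sqrt_W]
  unfold W
  rw [div_div_div_cancel_right₀ h1.ne']

theorem G_succ (i : ℕ) (w : ℝ) : G i w + rot (W i w) = G (i + 1) w := by
  have h1 := A_pos i w
  have h2 := A_pos (i + 1) w
  have e1 := A_sq i w
  have e2 := A_sq (i + 1) w
  unfold rot
  rw [sqrt_W]
  have e3 : W i w / (1 + A (i + 1) w / A i w) = w / (A i w + A (i + 1) w) := by
    unfold W; field_simp
  rw [e3]
  unfold G
  rw [div_add_div _ _ (by positivity) (by positivity), div_eq_div_iff (by positivity) (by positivity)]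
  push_cast at e2 ⊢
  have e4 : A (i + 1) w ^ 2 = A i w ^ 2 + w ^ 2 := by rw [e1, e2]; ring
  set a := A i w
  set b := A (i + 1) w
  have e5 : (i : ℝ) * w ^ 2 = a ^ 2 - 1 := by linarith
  have e6 : ((i : ℝ) + 1) * w ^ 2 = b ^ 2 - 1 := by linarith
  have e7 : w ^ 2 = b ^ 2 - a ^ 2 := by linarith
  rcases eq_or_ne w 0 with hw | hw
  · rw [hw]; ring
  · refine mul_right_cancel₀ hw ?_
    linear_combination (1 + b) * (a + b) * e5 + (1 + a) * (1 + b) * e7 - (1 + a) * (a + b) * e6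

theorem W_mono {i : ℕ} {w w' : ℝ} (h0 : 0 ≤ w) (h : w ≤ w') : W i w ≤ W i w' := by
  unfold W
  rw [div_le_div_iff₀ (A_pos _ _) (A_pos _ _)]
  have h0' : 0 ≤ w' := h0.trans h
  have h1 := A_sq i w
  have h2 := A_sq i w'
  refine (sq_le_sq₀ (mul_nonneg h0 (A_pos _ _).le) (mul_nonneg h0' (A_pos _ _).le)).1 ?_
  rw [mul_pow, mul_pow, h1, h2]
  nlinarith [mul_nonneg h0 h0']

theorem A_mono {i : ℕ} {w w' : ℝ} (h0 : 0 ≤ w) (h : w ≤ w') : A i w ≤ A i w' := by
  unfold A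
  apply Real.sqrt_le_sqrt
  gcongr

theorem W_nonneg {i : ℕ} {w : ℝ} (h0 : 0 ≤ w) : 0 ≤ W i w := div_nonneg h0 (A_pos _ _).le

theorem W_le {i : ℕ} {w : ℝ} (h0 : 0 ≤ w) : W i w ≤ w := div_le_self h0 (A_ge _ _)

theorem W_sub {i : ℕ} {w w' : ℝ} (h0 : 0 ≤ w) (h : w ≤ w') : W i w' - W i w ≤ w' - w := by
  have h1 : w * (1 - 1 / A i w) ≤ w' * (1 - 1 / A i w') := by
    have h2 : 1 - 1 / A i w ≤ 1 - 1 / A i w' := by
      have := one_div_le_one_div_of_le (A_pos i w) (A_mono (i := i) h0 h)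
      linarith
    have h3 : 0 ≤ 1 - 1 / A i w := by
      have := (div_le_one (A_pos i w)).2 (A_ge i w)
      linarith
    exact mul_le_mul h h2 h3 (h0.trans h)
  unfold W
  have e1 : w / A i w = w * (1 / A i w) := by ring
  have e2 : w' / A i w' = w' * (1 / A i w') := by ring
  rw [e1, e2]
  linarith

theorem rot_mono {w w' : ℝ} (h0 : 0 ≤ w) (h : w ≤ w') : rot w ≤ rot w' := by
  have h1 : W 1 w ≤ W 1 w' := W_mono h0 h
  unfold W A at h1
  have p1 : 0 < Real.sqrt (1 + w ^ 2) := Real.sqrt_pos.2 (by positivity)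
  have p2 : 0 < Real.sqrt (1 + w' ^ 2) := Real.sqrt_pos.2 (by positivity)
  simp only [Nat.cast_one, one_mul] at h1
  rw [div_le_div_iff₀ p1 p2] at h1
  unfold rot
  rw [div_le_div_iff₀ (by positivity) (by positivity)]
  linarith

theorem rot_nonneg {w : ℝ} (h0 : 0 ≤ w) : 0 ≤ rot w := by unfold rot; positivity

theorem rot_le {w : ℝ} (h0 : 0 ≤ w) : rot w ≤ w / 2 := by
  unfold rot
  have p1 : 1 ≤ Real.sqrt (1 + w ^ 2) := by rw [Real.one_le_sqrt]; nlinarith
  apply div_le_div_of_nonneg_left h0 (by norm_num) (by linarith)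

theorem G_diff_mono {i j : ℕ} (hij : i ≤ j) {w w' : ℝ} (h0 : 0 ≤ w) (h : w ≤ w') :
    G i w' - G i w ≤ G j w' - G j w := by
  induction j, hij using Nat.le_induction with
  | base => exact le_rfl
  | succ j hij ih =>
    have h1 := G_succ j w
    have h2 := G_succ j w'
    have h3 := rot_mono (W_nonneg (i := j) h0) (W_mono (i := j) h0 h)
    linarith

theorem G_zero (w : ℝ) : G 0 w = 0 := by simp [G]

theorem G_mono {i : ℕ} {w w' : ℝ} (h0 : 0 ≤ w) (h : w ≤ w') : G i w ≤ G i w' := by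
  have := G_diff_mono (Nat.zero_le i) h0 h
  rw [G_zero, G_zero] at this
  linarith

theorem G_diff_abs {i j : ℕ} (hij : i ≤ j) {w w' : ℝ} (h0 : 0 ≤ w) (h0' : 0 ≤ w') :
    |G i w' - G i w| ≤ |G j w' - G j w| := by
  rcases le_total w w' with h | h
  · rw [abs_of_nonneg (by linarith [G_mono (i := i) h0 h]),
      abs_of_nonneg (by linarith [G_mono (i := j) h0 h])]
    exact G_diff_mono hij h0 h
  · rw [abs_sub_comm, abs_sub_comm (G j w') _, abs_of_nonneg (by linarith [G_mono (i := i) h0' h]),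
      abs_of_nonneg (by linarith [G_mono (i := j) h0' h])]
    exact G_diff_mono hij h0' h

theorem W_diff_abs {i : ℕ} {w w' : ℝ} (h0 : 0 ≤ w) (h0' : 0 ≤ w') :
    |W i w' - W i w| ≤ |w' - w| := by
  rcases le_total w w' with h | h
  · rw [abs_of_nonneg (by linarith [W_mono (i := i) h0 h]), abs_of_nonneg (by linarith)]
    exact W_sub h0 h
  · rw [abs_sub_comm, abs_sub_comm w' w, abs_of_nonneg (by linarith [W_mono (i := i) h0' h]),
      abs_of_nonneg (by linarith)]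
    exact W_sub h0' h

theorem G_le_sqrt {n : ℕ} {w : ℝ} (h0 : 0 ≤ w) : G n w ≤ Real.sqrt n := by
  unfold G
  rw [div_le_iff₀ (by linarith [A_pos n w])]
  have h1 : Real.sqrt n * w ≤ A n w := by
    unfold A
    have : Real.sqrt n * w = Real.sqrt (n * w ^ 2) := by
      rw [Real.sqrt_mul (by positivity), Real.sqrt_sq h0]
    rw [this]
    exact Real.sqrt_le_sqrt (by linarith)
  have h2 : (n : ℝ) = Real.sqrt n * Real.sqrt n := (Real.mul_self_sqrt (by positivity)).symm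
  have h3 := Real.sqrt_nonneg (n : ℝ)
  calc (n : ℝ) * w = Real.sqrt n * (Real.sqrt n * w) := by rw [← mul_assoc, ← h2]
    _ ≤ Real.sqrt n * A n w := by gcongr
    _ ≤ Real.sqrt n * (1 + A n w) := by gcongr; linarith

theorem G_half {n : ℕ} : Real.sqrt n - 2 ≤ G n (1 / 2) := by
  unfold G
  have h1 := A_sq n (1 / 2)
  have h2 := A_ge n (1 / 2)
  set B := A n (1 / 2)
  have h3 : (n : ℝ) = 4 * (B ^ 2 - 1) := by rw [h1]; ring
  have h4 : (n : ℝ) * (1 / 2) / (1 + B) = 2 * (B - 1) := by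
    rw [h3, div_eq_iff (by linarith)]; ring
  rw [h4]
  have h5 : Real.sqrt n ≤ 2 * B := by
    rw [Real.sqrt_le_left (by linarith)]
    nlinarith
  linarith

theorem G_cont (n : ℕ) : Continuous (G n) := by
  unfold G A
  refine Continuous.div (by fun_prop) (by fun_prop) (fun w => ?_)
  have := Real.sqrt_nonneg (1 + (n : ℝ) * w ^ 2)
  linarith

theorem W_decay {i : ℕ} {w : ℝ} (h0 : 0 ≤ w) (h1 : w ≤ 1 / 2) :
    W i w ≤ 1 / Real.sqrt (i + 4) := by
  unfold W
  rw [div_le_div_iff₀ (A_pos _ _) (Real.sqrt_pos.2 (by positivity)), one_mul]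
  unfold A
  rw [show w * Real.sqrt ((i : ℝ) + 4) = Real.sqrt (w ^ 2 * ((i : ℝ) + 4)) by
    rw [Real.sqrt_mul (by positivity), Real.sqrt_sq h0]]
  apply Real.sqrt_le_sqrt
  nlinarith

/-! ### The system -/

/-- The annulus. -/
abbrev Z : Type := AddCircle (1 : ℝ) × Set.Icc (0 : ℝ) (1 / 2)

theorem lev_eq (w : ℝ) : lev w = W 1 w := by unfold lev W A; simp

theorem lev_mem (w : Set.Icc (0 : ℝ) (1 / 2)) : lev w.1 ∈ Set.Icc (0 : ℝ) (1 / 2) := by
  rw [lev_eq]
  exact ⟨W_nonneg w.2.1, (W_le w.2.1).trans w.2.2⟩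

/-- The map: rotate by `rot w`, and decrease the level `w`. -/
noncomputable def R (p : Z) : Z := (p.1 + ((rot p.2.1 : ℝ) : AddCircle (1 : ℝ)), ⟨lev p.2.1, lev_mem p.2⟩)

theorem continuous_R : Continuous R := by
  unfold R
  refine Continuous.prodMk ?_ ?_
  · refine continuous_fst.add ((AddCircle.continuous_mk' 1).comp ?_)
    unfold rot
    refine Continuous.div (by fun_prop) (by fun_prop) (fun p => ?_)
    have := Real.sqrt_nonneg (1 + (p.2.1 : ℝ) ^ 2)
    linarith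
  · refine Continuous.subtype_mk ?_ _
    unfold lev
    refine Continuous.div (by fun_prop) (by fun_prop) (fun p => ?_)
    exact (Real.sqrt_pos.2 (by positivity)).ne'

theorem R_iter (i : ℕ) (p : Z) :
    (R^[i] p).1 = p.1 + ((G i p.2.1 : ℝ) : AddCircle (1 : ℝ)) ∧ ((R^[i] p).2 : ℝ) = W i p.2.1 := by
  induction i with
  | zero => simp [G_zero, W, A]
  | succ i ih =>
    rw [Function.iterate_succ_apply']
    obtain ⟨h1, h2⟩ := ih
    constructor
    · change (R^[i] p).1 + ((rot ((R^[i] p).2 : ℝ) : ℝ) : AddCircle (1 : ℝ)) = _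
      rw [h1, h2, add_assoc, ← AddCircle.coe_add, G_succ]
    · change lev ((R^[i] p).2 : ℝ) = _
      rw [h2, lev_W]

theorem dist_R_iter (i : ℕ) (p q : Z) :
    dist (R^[i] p) (R^[i] q) = max ‖p.1 - q.1 + ((G i p.2.1 - G i q.2.1 : ℝ) : AddCircle (1 : ℝ))‖
      |W i p.2.1 - W i q.2.1| := by
  obtain ⟨h1, h2⟩ := R_iter i p
  obtain ⟨h3, h4⟩ := R_iter i q
  rw [Prod.dist_eq, Subtype.dist_eq, h1, h3, h2, h4, Real.dist_eq, dist_eq_norm]
  congr 2
  rw [AddCircle.coe_sub]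
  abel

theorem norm_coe_le (x : ℝ) : ‖((x : ℝ) : AddCircle (1 : ℝ))‖ ≤ |x| := by
  exact QuotientAddGroup.norm_mk_le_norm

/-- The colouring of the annulus. -/
theorem exists_color_Z {ε : ℝ} (hε : 0 < ε) : ∃ K : ℕ, ∀ n : ℕ,
    ∃ c : Z → Fin K × Fin (⌊Real.sqrt n / (ε / 2)⌋₊ + 1),
      ∀ p q, c p = c q → ∀ i < n, dist (R^[i] p) (R^[i] q) < ε := by
  obtain ⟨K1, c1, hc1⟩ := exists_color (AddCircle (1 : ℝ)) (half_pos hε)
  obtain ⟨K2, c2, hc2⟩ := exists_color (Set.Icc (0 : ℝ) (1 / 2)) hε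
  refine ⟨K1 * K2, fun n => ?_⟩
  refine ⟨fun p => (finProdFinEquiv (c1 p.1, c2 p.2), ⟨⌊G n p.2.1 / (ε / 2)⌋₊, ?_⟩), ?_⟩
  · apply Nat.lt_succ_of_le
    apply Nat.floor_le_floor
    have := G_le_sqrt (n := n) p.2.2.1
    gcongr
  · intro p q hpq i hi
    rw [Prod.mk.injEq] at hpq
    obtain ⟨h1, h2⟩ := hpq
    have h3 := finProdFinEquiv.injective h1
    rw [Prod.mk.injEq] at h3
    have h4 := hc1 _ _ h3.1
    have h5 := hc2 _ _ h3.2
    have h6 : ⌊G n p.2.1 / (ε / 2)⌋₊ = ⌊G n q.2.1 / (ε / 2)⌋₊ := by simpa using h2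
    have hGp : 0 ≤ G n p.2.1 := by
      have := G_mono (i := n) le_rfl p.2.2.1
      simpa [G] using this
    have hGq : 0 ≤ G n q.2.1 := by
      have := G_mono (i := n) le_rfl q.2.2.1
      simpa [G] using this
    have h7 : |G n p.2.1 - G n q.2.1| < ε / 2 := by
      have a1 := Nat.floor_le (div_nonneg hGp (half_pos hε).le)
      have a2 := Nat.lt_floor_add_one (G n p.2.1 / (ε / 2))
      have a3 := Nat.floor_le (div_nonneg hGq (half_pos hε).le)
      have a4 := Nat.lt_floor_add_one (G n q.2.1 / (ε / 2))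
      rw [h6] at a1 a2
      rw [div_lt_iff₀ (half_pos hε)] at a2 a4
      rw [le_div_iff₀ (half_pos hε)] at a1 a3
      rw [abs_lt]
      constructor <;> nlinarith
    rw [dist_R_iter]
    refine max_lt ?_ ?_
    · have b1 := norm_add_le (p.1 - q.1) ((G i p.2.1 - G i q.2.1 : ℝ) : AddCircle (1 : ℝ))
      have b2 := norm_coe_le (G i p.2.1 - G i q.2.1)
      have b3 := G_diff_abs hi.le q.2.2.1 p.2.2.1
      rw [dist_eq_norm] at h4
      linarith
    · have b1 := W_diff_abs (i := i) q.2.2.1 p.2.2.1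
      rw [Subtype.dist_eq, Real.dist_eq] at h5
      linarith

/-- The separated families in the annulus. -/
theorem exists_sep_Z {n : ℕ} (hn : 1 ≤ n) :
    ∃ p : Fin (⌊Real.sqrt n / 10⌋₊ + 1) → Z,
      ∀ j k, j ≠ k → ∃ i < n, 1 / 4 ≤ dist (R^[i] (p j)) (R^[i] (p k)) := by
  -- the levels
  have hlev : ∀ k : Fin (⌊Real.sqrt n / 10⌋₊ + 1), ∃ w : Set.Icc (0 : ℝ) (1 / 2),
      G (n - 1) w.1 = k / 4 := by
    intro k
    have hk : ((k : ℕ) : ℝ) ≤ Real.sqrt n / 10 := by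
      have h1 : (k : ℕ) ≤ ⌊Real.sqrt n / 10⌋₊ := Nat.lt_succ_iff.1 k.2
      exact (Nat.le_floor_iff (by positivity)).1 h1
    have hub : ((k : ℕ) : ℝ) / 4 ≤ G (n - 1) (1 / 2) := by
      rcases Nat.eq_zero_or_pos (k : ℕ) with h0 | h0
      · rw [h0]; simp only [Nat.cast_zero, zero_div]
        unfold G; have := A_pos (n - 1) (1 / 2); positivity
      · have h1 : (1 : ℝ) ≤ (k : ℕ) := by exact_mod_cast h0
        have h2 : (10 : ℝ) ≤ Real.sqrt n := by linarith
        have h3 := G_half (n := n - 1)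
        have h4 : Real.sqrt n - 1 ≤ Real.sqrt ((n - 1 : ℕ) : ℝ) := by
          apply Real.le_sqrt_of_sq_le
          rw [Nat.cast_sub hn]
          have h5 : Real.sqrt n ^ 2 = n := Real.sq_sqrt (by positivity)
          push_cast
          nlinarith
        linarith
    have hlb : G (n - 1) 0 ≤ ((k : ℕ) : ℝ) / 4 := by
      have : G (n - 1) 0 = 0 := by simp [G]
      rw [this]; positivity
    obtain ⟨w, hw, hw'⟩ := intermediate_value_Icc (show (0 : ℝ) ≤ 1 / 2 by norm_num)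
      (G_cont (n - 1)).continuousOn ⟨hlb, hub⟩
    exact ⟨⟨w, hw⟩, hw'⟩
  choose w hw using hlev
  refine ⟨fun k => (0, w k), ?_⟩
  have key : ∀ j k : Fin (⌊Real.sqrt n / 10⌋₊ + 1), j < k →
      ∃ i < n, 1 / 4 ≤ dist (R^[i] ((0, w j) : Z)) (R^[i] ((0, w k) : Z)) := by
    intro j k hjk
    have hjk' : ((j : ℕ) : ℝ) + 1 ≤ (k : ℕ) := by exact_mod_cast hjk
    have hle : (w j).1 ≤ (w k).1 := by
      by_contra hcon
      push Not at hcon
      have := G_mono (i := n - 1) (w k).2.1 hcon.le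
      rw [hw, hw] at this
      linarith
    set D : ℕ → ℝ := fun i => G i (w k).1 - G i (w j).1 with hD
    have hD0 : D 0 = 0 := by simp [hD, G_zero]
    have hDn : 1 / 4 ≤ D (n - 1) := by
      simp only [hD]; rw [hw, hw]; linarith
    have hstep : ∀ i, D (i + 1) ≤ D i + 1 / 4 := by
      intro i
      have h1 := G_succ i (w k).1
      have h2 := G_succ i (w j).1
      have h3 := rot_nonneg (W_nonneg (i := i) (w j).2.1)
      have h4 := rot_le (W_nonneg (i := i) (w k).2.1)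
      have h5 := W_le (i := i) (w k).2.1
      have h6 := (w k).2.2
      simp only [hD]
      linarith
    have hex : ∃ i, 1 / 4 ≤ D i := ⟨n - 1, hDn⟩
    classical
    set i := Nat.find hex with hi
    have hi1 : 1 / 4 ≤ D i := Nat.find_spec hex
    have hi2 : i ≤ n - 1 := Nat.find_min' hex hDn
    have hi0 : i ≠ 0 := by
      intro h
      rw [h, hD0] at hi1
      linarith
    have hi3 : D i ≤ 1 / 2 := by
      obtain ⟨m, hm⟩ := Nat.exists_eq_succ_of_ne_zero hi0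
      have h1 : ¬ (1 / 4 ≤ D m) := Nat.find_min hex (by omega)
      push Not at h1
      have h2 := hstep m
      rw [hm]
      linarith
    refine ⟨i, by omega, ?_⟩
    rw [dist_R_iter]
    refine le_trans ?_ (le_max_left _ _)
    simp only [sub_self, zero_add]
    have h1 : ‖((G i (w j).1 - G i (w k).1 : ℝ) : AddCircle (1 : ℝ))‖ = |G i (w j).1 - G i (w k).1| := by
      rw [AddCircle.norm_coe_eq_abs_iff 1 one_ne_zero]
      rw [abs_sub_comm, abs_of_nonneg (by linarith : (0 : ℝ) ≤ G i (w k).1 - G i (w j).1)]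
      rw [abs_one]
      exact hi3
    rw [h1, abs_sub_comm, abs_of_nonneg (by linarith : (0 : ℝ) ≤ G i (w k).1 - G i (w j).1)]
    exact hi1
  intro j k hjk
  rcases lt_or_gt_of_ne hjk with h | h
  · exact key j k h
  · obtain ⟨i, hi, hd⟩ := key k j h
    exact ⟨i, hi, by rw [dist_comm]; exact hd⟩

/-! ### The product system -/

/-- The product map on `Z × Z`. -/
noncomputable def T : Z × Z → Z × Z := Prod.map R R

theorem continuous_T : Continuous T := continuous_R.prodMap continuous_R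

theorem T_iter (i : ℕ) (p : Z × Z) : T^[i] p = (R^[i] p.1, R^[i] p.2) := by
  unfold T
  rw [Prod.map_iterate]
  rfl

theorem exists_color_T {ε : ℝ} (hε : 0 < ε) : ∃ K : ℕ, ∀ n : ℕ,
    ∃ c : Z × Z → (Fin K × Fin (⌊Real.sqrt n / (ε / 2)⌋₊ + 1)) ×
        (Fin K × Fin (⌊Real.sqrt n / (ε / 2)⌋₊ + 1)),
      ∀ p q, c p = c q → ∀ i < n, dist (T^[i] p) (T^[i] q) < ε := by
  obtain ⟨K, hK⟩ := exists_color_Z hε
  refine ⟨K, fun n => ?_⟩
  obtain ⟨c, hc⟩ := hK n
  refine ⟨fun p => (c p.1, c p.2), fun p q hpq i hi => ?_⟩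
  rw [Prod.mk.injEq] at hpq
  rw [T_iter, T_iter, Prod.dist_eq]
  exact max_lt (hc _ _ hpq.1 i hi) (hc _ _ hpq.2 i hi)

theorem span_upper {ε : ℝ} (hε : 0 < ε) :
    GrowthLE (fun n => (spanCard T n ε : ℝ)) (fun n => (n : ℝ)) := by
  obtain ⟨K, hK⟩ := exists_color_T hε
  refine ⟨((K + 1) * (2 / ε + 1)) ^ 2, by positivity, fun n hn => ?_⟩
  obtain ⟨c, hc⟩ := hK n
  have h1 := spanCard_le_of_color c hc
  have h2 : ((spanCard T n ε : ℕ) : ℝ) ≤ ((K : ℝ) * (⌊Real.sqrt n / (ε / 2)⌋₊ + 1)) ^ 2 := by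
    have : spanCard T n ε ≤ (K * (⌊Real.sqrt n / (ε / 2)⌋₊ + 1)) ^ 2 := by
      refine h1.trans (le_of_eq ?_)
      simp only [Fintype.card_prod, Fintype.card_fin]
      ring
    exact_mod_cast this
  have hs : 1 ≤ Real.sqrt n := by rw [Real.one_le_sqrt]; exact_mod_cast hn
  have h3 : (⌊Real.sqrt n / (ε / 2)⌋₊ : ℝ) + 1 ≤ (2 / ε + 1) * Real.sqrt n := by
    have h4 : (⌊Real.sqrt n / (ε / 2)⌋₊ : ℝ) ≤ Real.sqrt n / (ε / 2) := Nat.floor_le (by positivity)
    have h5 : Real.sqrt n / (ε / 2) = 2 / ε * Real.sqrt n := by field_simp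
    linarith
  have h6 : (n : ℝ) = Real.sqrt n ^ 2 := (Real.sq_sqrt (by positivity)).symm
  have h7 : (K : ℝ) * (⌊Real.sqrt n / (ε / 2)⌋₊ + 1) ≤ (K + 1) * (2 / ε + 1) * Real.sqrt n := by
    calc (K : ℝ) * (⌊Real.sqrt n / (ε / 2)⌋₊ + 1) ≤ (K + 1) * ((2 / ε + 1) * Real.sqrt n) := by
          gcongr; linarith
      _ = (K + 1) * (2 / ε + 1) * Real.sqrt n := by ring
  refine h2.trans ((pow_le_pow_left₀ (by positivity) h7 2).trans (le_of_eq ?_))
  rw [mul_pow, ← h6]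

theorem span_lower {n : ℕ} (hn : 1 ≤ n) : (n : ℝ) ≤ 100 * spanCard T n (1 / 8) := by
  obtain ⟨p, hp⟩ := exists_sep_Z hn
  have hex : ∃ E : Finset (Z × Z), ∀ x, ∃ y ∈ E, ∀ i < n, dist (T^[i] x) (T^[i] y) < 1 / 8 := by
    obtain ⟨K, hK⟩ := exists_color_T (show (0 : ℝ) < 1 / 8 by norm_num)
    obtain ⟨c, hc⟩ := hK n
    classical
    let r : Set.range c → Z × Z := fun j => j.2.choose
    have hr : ∀ j : Set.range c, c (r j) = j.1 := fun j => j.2.choose_spec
    have : Fintype (Set.range c) := Fintype.ofFinite _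
    refine ⟨Finset.univ.image r, fun x => ⟨r ⟨c x, x, rfl⟩,
      Finset.mem_image_of_mem _ (Finset.mem_univ _), ?_⟩⟩
    have h2 : c (r ⟨c x, x, rfl⟩) = c x := hr ⟨c x, x, rfl⟩
    exact hc _ _ h2.symm
  have h1 := le_spanCard_of_separated (T := T) (n := n) (ε := 1 / 8)
    (fun jk : Fin (⌊Real.sqrt n / 10⌋₊ + 1) × Fin (⌊Real.sqrt n / 10⌋₊ + 1) => (p jk.1, p jk.2))
    hex ?_
  · simp only [Fintype.card_prod, Fintype.card_fin] at h1
    have h2 : ((⌊Real.sqrt n / 10⌋₊ : ℝ) + 1) * (⌊Real.sqrt n / 10⌋₊ + 1) ≤ spanCard T n (1 / 8) := by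
      exact_mod_cast h1
    have h3 : Real.sqrt n / 10 < (⌊Real.sqrt n / 10⌋₊ : ℝ) + 1 := Nat.lt_floor_add_one _
    have h6 : (n : ℝ) = Real.sqrt n ^ 2 := (Real.sq_sqrt (by positivity)).symm
    have h7 := Real.sqrt_nonneg (n : ℝ)
    nlinarith
  · intro jk lm hne
    have hne' : jk.1 ≠ lm.1 ∨ jk.2 ≠ lm.2 := by
      by_contra hcon
      push Not at hcon
      exact hne (Prod.ext hcon.1 hcon.2)
    rcases hne' with h | h
    · obtain ⟨i, hi, hd⟩ := hp _ _ h
      refine ⟨i, hi, ?_⟩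
      rw [T_iter, T_iter, Prod.dist_eq]
      refine le_trans ?_ (le_max_left _ _)
      linarith
    · obtain ⟨i, hi, hd⟩ := hp _ _ h
      refine ⟨i, hi, ?_⟩
      rw [T_iter, T_iter, Prod.dist_eq]
      refine le_trans ?_ (le_max_right _ _)
      linarith

theorem linear_T : HasLinearGrowth T := by
  refine ⟨fun ε hε => span_upper hε, fun b _ _ hb => ?_⟩
  obtain ⟨C, hC, h⟩ := hb (1 / 8) (by norm_num)
  refine ⟨100 * C, by positivity, fun n hn => ?_⟩
  have h1 := span_lower hn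
  have h2 := h n hn
  linarith

theorem slow_R (i : ℕ) (p : Z) : dist (R^[i + 1] p) (R^[i] p) ≤ 1 / Real.sqrt (i + 4) := by
  have hW := W_decay (i := i) p.2.2.1 p.2.2.2
  have hW0 := W_nonneg (i := i) p.2.2.1
  rw [Function.iterate_succ_apply']
  obtain ⟨h1, h2⟩ := R_iter i p
  rw [Prod.dist_eq]
  refine max_le ?_ ?_
  · change dist ((R^[i] p).1 + ((rot ((R^[i] p).2 : ℝ) : ℝ) : AddCircle (1 : ℝ))) (R^[i] p).1 ≤ _
    rw [dist_eq_norm, add_sub_cancel_left, h2]
    refine (norm_coe_le _).trans ?_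
    rw [abs_of_nonneg (rot_nonneg hW0)]
    have := rot_le hW0
    linarith
  · change |lev ((R^[i] p).2 : ℝ) - ((R^[i] p).2 : ℝ)| ≤ _
    rw [h2, lev_eq]
    have h3 := W_le (i := 1) hW0
    have h4 := W_nonneg (i := 1) hW0
    rw [abs_of_nonpos (by linarith)]
    linarith

theorem slow_T (i : ℕ) (p : Z × Z) : dist (T^[i + 1] p) (T^[i] p) ≤ 1 / Real.sqrt (i + 4) := by
  rw [T_iter, T_iter, Prod.dist_eq]
  exact max_le (slow_R i p.1) (slow_R i p.2)

theorem hyper_iter (i : ℕ) (K : TopologicalSpace.NonemptyCompacts (Z × Z)) :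
    (((hyper T continuous_T)^[i] K : TopologicalSpace.NonemptyCompacts (Z × Z)) : Set (Z × Z)) =
      T^[i] '' (K : Set (Z × Z)) := by
  induction i with
  | zero => simp
  | succ i ih =>
    rw [Function.iterate_succ_apply']
    unfold hyper at ih ⊢
    rw [TopologicalSpace.NonemptyCompacts.coe_map, ih, Set.image_image]
    refine Set.image_congr' fun x => ?_
    rw [Function.iterate_succ_apply']

theorem slow_hyper (i : ℕ) (K : TopologicalSpace.NonemptyCompacts (Z × Z)) :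
    dist ((hyper T continuous_T)^[i + 1] K) ((hyper T continuous_T)^[i] K) ≤
      1 / Real.sqrt (i + 4) := by
  rw [Metric.NonemptyCompacts.dist_eq, hyper_iter, hyper_iter]
  refine Metric.hausdorffDist_le_of_mem_dist (by positivity) ?_ ?_
  · rintro _ ⟨x, hx, rfl⟩
    exact ⟨T^[i] x, ⟨x, hx, rfl⟩, slow_T i x⟩
  · rintro _ ⟨x, hx, rfl⟩
    refine ⟨T^[i + 1] x, ⟨x, hx, rfl⟩, ?_⟩
    rw [dist_comm]
    exact slow_T i x

theorem zero_hyper : topEntropy (hyper T continuous_T) = 0 := by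
  have : Nonempty (TopologicalSpace.NonemptyCompacts (Z × Z)) :=
    ⟨⟨⟨{((0, ⟨0, by norm_num⟩), (0, ⟨0, by norm_num⟩))}, isCompact_singleton⟩,
      Set.singleton_nonempty _⟩⟩
  refine topEntropy_eq_zero (s := fun i : ℕ => 1 / Real.sqrt ((i : ℝ) + 4)) ?_ slow_hyper
  have h1 : Tendsto (fun i : ℕ => Real.sqrt ((i : ℝ) + 4)) atTop atTop :=
    Real.tendsto_sqrt_atTop.comp
      (tendsto_atTop_add_const_right _ _ tendsto_natCast_atTop_atTop)
  refine h1.inv_tendsto_atTop.congr fun i => ?_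
  rw [Pi.inv_apply, one_div]

end Pool.Agent.X183.LinGrow
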